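import Mathlib

set_option autoImplicit false

/-!
# Contractible bonds: connected sets, components and cuts
-/

namespace Pool.Agent.U385.Bond

open Set

variable {V : Type} (G : SimpleGraph V)

/-- a connected set of vertices -/
def Cn (S : Set V) : Prop :=
  S.Nonempty ∧ ∀ X : Set V, X ⊆ S → X.Nonempty →
    (∀ x ∈ X, ∀ y ∈ S, G.Adj x y → y ∈ X) → X = S

theorem cn_iff (S : Set V) : Cn G S ↔ (G.induce S).Connected := by
  constructor
  · rintro ⟨⟨x0, hx0⟩, h⟩
    rw [SimpleGraph.connected_iff]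
    refine ⟨fun x y => ?_, ⟨⟨x0, hx0⟩⟩⟩
    have := h {y | ∃ hy : y ∈ S, (G.induce S).Reachable x ⟨y, hy⟩} (fun y hy => hy.1)
      ⟨x.1, x.2, SimpleGraph.Reachable.refl _⟩ (by
        rintro a ⟨ha, hr⟩ b hb hab
        refine ⟨hb, hr.trans ?_⟩
        exact SimpleGraph.Adj.reachable (by simpa using hab))
    have hy : y.1 ∈ {y | ∃ hy : y ∈ S, (G.induce S).Reachable x ⟨y, hy⟩} := by
      rw [this]; exact y.2
    obtain ⟨_, hr⟩ := hy
    exact hr
  · intro h
    have hne := h.nonempty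
    obtain ⟨x0⟩ := hne
    refine ⟨⟨x0.1, x0.2⟩, fun X hXS hXne hcl => ?_⟩
    obtain ⟨x, hx⟩ := hXne
    refine Subset.antisymm hXS fun y hy => ?_
    have hr : (G.induce S).Reachable ⟨x, hXS hx⟩ ⟨y, hy⟩ := h.preconnected _ _
    obtain ⟨p⟩ := hr
    have key : ∀ (a b : S), (G.induce S).Walk a b → a.1 ∈ X → b.1 ∈ X := by
      intro a b p
      induction p with
      | nil => exact id
      | cons hab _ ih =>
        intro ha
        exact ih (hcl _ ha _ (Subtype.property _) (by simpa using hab))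
    exact key _ _ p hx

variable {G}

theorem cn_singleton (x : V) : Cn G {x} := by
  refine ⟨⟨x, rfl⟩, fun X hX hne _ => ?_⟩
  obtain ⟨y, hy⟩ := hne
  have := hX hy
  rw [mem_singleton_iff] at this
  subst this
  exact Subset.antisymm hX (singleton_subset_iff.2 hy)

/-- a set is connected if it has a connected core which every vertex reaches -/
theorem cn_of_core {W C : Set V} (hCW : C ⊆ W) (hC : Cn G C)
    (h : ∀ x ∈ W, ∃ P : Set V, x ∈ P ∧ P ⊆ W ∧ Cn G P ∧
      ∃ p ∈ P, ∃ c ∈ C, p = c ∨ G.Adj p c) : Cn G W := by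
  refine ⟨hC.1.mono hCW, fun X hXW hne hcl => ?_⟩
  have sub : ∀ P : Set V, P ⊆ W → Cn G P → (X ∩ P).Nonempty → P ⊆ X := by
    intro P hPW hP hne'
    have := hP.2 (X ∩ P) inter_subset_right hne' (by
      rintro x ⟨hx, hxP⟩ y hy hxy
      exact ⟨hcl x hx y (hPW hy) hxy, hy⟩)
    rw [← this]; exact inter_subset_left
  obtain ⟨x, hx⟩ := hne
  have hCX : C ⊆ X := by
    obtain ⟨P, hxP, hPW, hP, p, hp, c, hc, hpc⟩ := h x (hXW hx)
    have hPX := sub P hPW hP ⟨x, hx, hxP⟩
    refine sub C hCW hC ⟨c, ?_, hc⟩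
    rcases hpc with rfl | hpc
    · exact hPX hp
    · exact hcl p (hPX hp) c (hCW hc) hpc
  refine Subset.antisymm hXW fun w hw => ?_
  obtain ⟨P, hxP, hPW, hP, p, hp, c, hc, hpc⟩ := h w hw
  refine sub P hPW hP ⟨p, ?_, hp⟩ hxP
  rcases hpc with rfl | hpc
  · exact hCX hc
  · exact hcl c (hCX hc) p (hPW hp) hpc.symm

theorem cn_union {A B : Set V} (hA : Cn G A) (hB : Cn G B) {a b : V} (ha : a ∈ A) (hb : b ∈ B)
    (hab : a = b ∨ G.Adj a b) : Cn G (A ∪ B) := by
  refine cn_of_core subset_union_left hA ?_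
  rintro x (hx | hx)
  · exact ⟨A, hx, subset_union_left, hA, x, hx, x, hx, Or.inl rfl⟩
  · exact ⟨B, hx, subset_union_right, hB, b, hb, a, ha, hab.imp Eq.symm SimpleGraph.Adj.symm⟩

theorem cn_pair {a b : V} (hab : G.Adj a b) : Cn G {a, b} := by
  have := cn_union (cn_singleton (G := G) a) (cn_singleton b) rfl rfl (Or.inr hab)
  rwa [singleton_union] at this

variable (G)

/-- a component of the set `W` -/
def IsCp (W D : Set V) : Prop := D ⊆ W ∧ Cn G D ∧ ∀ x ∈ D, ∀ y ∈ W, G.Adj x y → y ∈ D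

variable {G}

theorem exists_cp {W : Set V} {x : V} (hx : x ∈ W) : ∃ D, x ∈ D ∧ IsCp G W D := by
  let D : Set V := {y | y ∈ W ∧ ∀ X : Set V, x ∈ X → X ⊆ W →
    (∀ a ∈ X, ∀ b ∈ W, G.Adj a b → b ∈ X) → y ∈ X}
  have hxD : x ∈ D := ⟨hx, fun X h _ _ => h⟩
  have hDW : D ⊆ W := fun y hy => hy.1
  have hcl : ∀ a ∈ D, ∀ b ∈ W, G.Adj a b → b ∈ D := fun a ha b hb hab =>
    ⟨hb, fun X h1 h2 h3 => h3 a (ha.2 X h1 h2 h3) b hb hab⟩
  refine ⟨D, hxD, hDW, ⟨⟨x, hxD⟩, fun X hXD hne hXcl => ?_⟩, hcl⟩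
  refine Subset.antisymm hXD ?_
  by_cases hxX : x ∈ X
  · intro y hy
    exact hy.2 X hxX (hXD.trans hDW) (fun a ha b hb hab => hXcl a ha b (hcl a (hXD ha) b hb hab) hab)
  · exfalso
    obtain ⟨y, hy⟩ := hne
    have := (hXD hy).2 (D \ X) ⟨hxD, hxX⟩ (diff_subset.trans hDW) (by
      rintro a ⟨haD, haX⟩ b hb hab
      refine ⟨hcl a haD b hb hab, fun hbX => haX (hXcl b hbX a haD hab.symm)⟩)
    exact this.2 hy

theorem cp_absorb {W D C : Set V} (hD : IsCp G W D) (hC : Cn G C) (hCW : C ⊆ W) {x : V}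
    (hx : x ∈ C) (hxD : x ∈ D) : C ⊆ D := by
  have := hC.2 (D ∩ C) inter_subset_right ⟨x, hxD, hx⟩ (by
    rintro a ⟨ha, haC⟩ b hb hab
    exact ⟨hD.2.2 a ha b (hCW hb) hab, hb⟩)
  rw [← this]; exact inter_subset_left

theorem cp_eq {W D D' : Set V} (hD : IsCp G W D) (hD' : IsCp G W D') {x : V}
    (hx : x ∈ D) (hx' : x ∈ D') : D = D' :=
  Subset.antisymm (cp_absorb hD' hD.2.1 hD.1 hx hx') (cp_absorb hD hD'.2.1 hD'.1 hx' hx)

/-- the cut between `A` and its complement -/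
def cut (G : SimpleGraph V) (A : Set V) : SimpleGraph V where
  Adj x y := G.Adj x y ∧ ¬ (x ∈ A ↔ y ∈ A)
  symm := ⟨fun _ _ h => ⟨h.1.symm, fun h' => h.2 h'.symm⟩⟩
  loopless := ⟨fun _ h => h.2 Iff.rfl⟩

variable (G)

/-- the conclusion: a contractible bond -/
def Concl : Prop :=
  ∃ H : SimpleGraph V, H ≤ G ∧ H ≠ ⊥ ∧ ¬ (G \ H).Connected ∧
    (∀ K : SimpleGraph V, K ≤ H → K ≠ ⊥ → ¬ (G \ K).Connected → K = H) ∧
    (∃ u v : V, ¬ H.Reachable u v) ∧
    (∃ a b c d : V, G.Adj a b ∧ G.Adj c d ∧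
        ¬ H.Reachable a b ∧ ¬ H.Reachable c d ∧
        ¬ (a = c ∧ b = d) ∧ ¬ (a = d ∧ b = c)) ∧
    (∀ v : V, (G.induce {w : V | ¬ H.Reachable v w}).Connected)

variable {G}

theorem two {X : Set V} (h2 : ∀ v : V, Cn G {w | w ≠ v}) (hX : X.Nonempty) {c y : V}
    (hc : c ∉ X) (hy : y ∉ X) (hyc : y ≠ c) (h : ∀ x ∈ X, ∀ w, G.Adj x w → w ∈ X ∨ w = c) :
    False := by
  have := (h2 c).2 X (fun x hx hxc => hc (hxc ▸ hx)) hX (fun x hx w hw hxw =>
    (h x hx w hxw).resolve_right hw)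
  exact hy (this ▸ hyc)

theorem concl_of_cut [Fintype V] (h3 : 3 ≤ Fintype.card V) (hG : Cn G univ)
    (h2 : ∀ v : V, Cn G {w | w ≠ v}) {A : Set V} (hA : Cn G A) (hB : Cn G Aᶜ)
    (hcl : ∀ v, Cn G {w | ¬ (cut G A).Reachable v w}) : Concl G := by
  classical
  -- an edge crossing a proper nonempty set
  have cross : ∀ X : Set V, X.Nonempty → Xᶜ.Nonempty → ∃ a ∈ X, ∃ b, b ∉ X ∧ G.Adj a b := by
    intro X hX hXc
    by_contra hcon
    push Not at hcon
    have := hG.2 X (subset_univ _) hX (fun x hx y _ hxy => by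
      by_contra hy
      exact hcon x hx y hy hxy)
    obtain ⟨y, hy⟩ := hXc
    exact hy (this ▸ mem_univ y)
  obtain ⟨a0, ha0, b0, hb0, hab0⟩ := cross A hA.1 hB.1
  -- inside a connected side, vertices stay reachable after deletion of a subgraph of the cut
  have inside : ∀ (K : SimpleGraph V), K ≤ cut G A → ∀ S : Set V, Cn G S →
      (∀ x ∈ S, ∀ y ∈ S, (x ∈ A ↔ y ∈ A)) → ∀ x ∈ S, ∀ y ∈ S, (G \ K).Reachable x y := by
    intro K hK S hS hside x hx y hy
    have := hS.2 {y | y ∈ S ∧ (G \ K).Reachable x y} (fun y hy => hy.1)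
      ⟨x, hx, SimpleGraph.Reachable.refl _⟩ (by
        rintro a ⟨ha, hr⟩ b hb hab
        refine ⟨hb, hr.trans (SimpleGraph.Adj.reachable ?_)⟩
        rw [SimpleGraph.sdiff_adj]
        exact ⟨hab, fun hKab => (hK hKab).2 (hside a ha b hb)⟩)
    have hy' : y ∈ {y | y ∈ S ∧ (G \ K).Reachable x y} := by rw [this]; exact hy
    exact hy'.2
  refine ⟨cut G A, fun x y h => h.1, ?_, ?_, ?_, ?_, ?_, ?_⟩
  · intro h
    have : (cut G A).Adj a0 b0 := ⟨hab0, fun h' => hb0 (h'.1 ha0)⟩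
    rw [h] at this
    exact this.elim
  · intro h
    obtain ⟨p⟩ := h.preconnected a0 b0
    have key : ∀ a b : V, (G \ cut G A).Walk a b → a ∈ A → b ∈ A := by
      intro a b p
      induction p with
      | nil => exact id
      | cons hab _ ih =>
        intro ha
        refine ih ?_
        rw [SimpleGraph.sdiff_adj] at hab
        by_contra hb
        exact hab.2 ⟨hab.1, fun h' => hb (h'.1 ha)⟩
    exact hb0 (key _ _ p ha0)
  · intro K hK _ hKn
    by_contra hne
    have : ∃ a b, (cut G A).Adj a b ∧ ¬ K.Adj a b := by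
      by_contra hcon
      push Not at hcon
      exact hne (le_antisymm hK (fun a b h => hcon a b h))
    obtain ⟨a, b, hab, hKab⟩ := this
    apply hKn
    have hGK : (G \ K).Adj a b := by
      rw [SimpleGraph.sdiff_adj]; exact ⟨hab.1, hKab⟩
    have hAA := inside K hK A hA (fun x hx y hy => by simp [hx, hy])
    have hBB := inside K hK Aᶜ hB (fun x hx y hy => by
      rw [mem_compl_iff] at hx hy; simp [hx, hy])
    -- the ends of the edge
    have hends : ∃ p q, p ∈ A ∧ q ∈ Aᶜ ∧ (G \ K).Reachable p q := by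
      by_cases ha : a ∈ A
      · refine ⟨a, b, ha, fun hb => hab.2 (by simp [ha, hb]), hGK.reachable⟩
      · refine ⟨b, a, ?_, ha, hGK.symm.reachable⟩
        by_contra hb
        exact hab.2 (by simp [ha, hb])
    obtain ⟨p, q, hp, hq, hpq⟩ := hends
    rw [SimpleGraph.connected_iff]
    refine ⟨fun x y => ?_, ⟨a⟩⟩
    have toP : ∀ x, (G \ K).Reachable x p := by
      intro x
      by_cases hx : x ∈ A
      · exact hAA x hx p hp
      · exact (hBB x hx q hq).trans hpq.symm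
    exact (toP x).trans (toP y).symm
  · obtain ⟨w, hw⟩ := (hcl a0).1
    exact ⟨a0, w, hw⟩
  · let K : Set V := {w | (cut G A).Reachable a0 w}
    have ha0K : a0 ∈ K := SimpleGraph.Reachable.refl _
    have hKc : Kᶜ.Nonempty := by
      obtain ⟨w, hw⟩ := (hcl a0).1
      exact ⟨w, hw⟩
    obtain ⟨a, ha, b, hb, hab⟩ := cross K ⟨a0, ha0K⟩ hKc
    have hnr : ∀ x y, x ∈ K → y ∉ K → ¬ (cut G A).Reachable x y := fun x y hx hy h =>
      hy (SimpleGraph.Reachable.trans hx h)
    by_contra hcon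
    have hone : ∀ c ∈ K, ∀ d, d ∉ K → G.Adj c d → a = c ∧ b = d := by
      intro c hc d hd hcd
      by_contra hne
      refine hcon ⟨a, b, c, d, hab, hcd, hnr a b ha hb, hnr c d hc hd, hne, ?_⟩
      rintro ⟨rfl, rfl⟩
      exact hd ha
    have hne : a ≠ b := hab.ne
    -- a third vertex
    obtain ⟨c, hca, hcb⟩ : ∃ c, c ≠ a ∧ c ≠ b := by
      by_contra hcon'
      push Not at hcon'
      have : (Finset.univ : Finset V) ⊆ {a, b} := fun c _ => by
        rw [Finset.mem_insert, Finset.mem_singleton]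
        by_cases h : c = a
        · exact Or.inl h
        · exact Or.inr (hcon' c h)
      have := Finset.card_le_card this
      rw [Finset.card_univ] at this
      have := this.trans Finset.card_le_two
      omega
    by_cases hcK : c ∈ K
    · refine two h2 (X := K \ {a}) ⟨c, hcK, hca⟩ (c := a) (y := b) (fun h => h.2 rfl)
        (fun h => hb h.1) hne.symm ?_
      rintro x ⟨hx, hxa⟩ w hxw
      by_cases hw : w ∈ K
      · by_cases hwa : w = a
        · exact Or.inr hwa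
        · exact Or.inl ⟨hw, hwa⟩
      · exact absurd (hone x hx w hw hxw).1.symm hxa
    · refine two h2 (X := Kᶜ \ {b}) ⟨c, hcK, hcb⟩ (c := b) (y := a) (fun h => h.2 rfl)
        (fun h => h.1 ha) hne ?_
      rintro x ⟨hx, hxb⟩ w hxw
      by_cases hw : w ∈ K
      · exact absurd (hone w hw x hx hxw.symm).2.symm hxb
      · by_cases hwb : w = b
        · exact Or.inr hwb
        · exact Or.inl ⟨hw, hwb⟩
  · intro v
    rw [← cn_iff]
    exact hcl v

/-- a description of the vertices that are not in the class of `v` -/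
theorem class_compl {H : SimpleGraph V} {K : Set V} {v : V} (hv : v ∈ K)
    (hcl : ∀ x ∈ K, ∀ y, H.Adj x y → y ∈ K) (hr : ∀ y ∈ K, H.Reachable v y) :
    {w | ¬ H.Reachable v w} = Kᶜ := by
  ext w
  simp only [mem_setOf_eq, mem_compl_iff]
  refine not_congr ⟨fun h => ?_, fun h => hr w h⟩
  obtain ⟨p⟩ := h
  have key : ∀ a b : V, H.Walk a b → a ∈ K → b ∈ K := by
    intro a b p
    induction p with
    | nil => exact id
    | cons hab _ ih => exact fun ha => ih (hcl _ ha _ hab)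
  exact key _ _ p hv

theorem class_single {H : SimpleGraph V} {v : V} (h : ∀ y, ¬ H.Adj v y) :
    {w | ¬ H.Reachable v w} = {w | w ≠ v} := by
  rw [class_compl (K := {v}) rfl (by
    rintro x rfl y hxy
    exact absurd hxy (h y)) (by
    rintro y rfl
    exact SimpleGraph.Reachable.refl _)]
  rfl

end Pool.Agent.U385.Bond
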