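import Pool.Agent.U385.Bond1

set_option autoImplicit false

/-!
# Contractible bonds: stars, twin ends
-/

namespace Pool.Agent.U385.Bond

open Set

variable {V : Type} {G : SimpleGraph V}

/-- triangle-free, written out -/
def TF (G : SimpleGraph V) : Prop := ∀ a b c, G.Adj a b → G.Adj b c → G.Adj a c → False

/-- if there is no contractible bond, then no star is contractible -/
theorem star_bad [Fintype V] (h3 : 3 ≤ Fintype.card V) (hG : Cn G univ)
    (h2 : ∀ v : V, Cn G {w | w ≠ v}) (hno : ¬ Concl G) (v : V) :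
    ¬ Cn G {w | w ≠ v ∧ ¬ G.Adj v w} := by
  intro hcn
  apply hno
  refine concl_of_cut h3 hG h2 (A := {v}) (cn_singleton v) (h2 v) ?_
  intro u
  have hadj : ∀ x y, (cut G {v}).Adj x y → (x = v ∧ G.Adj v y) ∨ (y = v ∧ G.Adj v x) := by
    rintro x y ⟨hxy, hne⟩
    by_cases hx : x = v
    · subst hx; exact Or.inl ⟨rfl, hxy⟩
    · by_cases hy : y = v
      · subst hy; exact Or.inr ⟨rfl, hxy.symm⟩
      · exact absurd (by simp [hx, hy]) hne
  have hcut : ∀ y, G.Adj v y → (cut G {v}).Adj v y := fun y hy =>
    ⟨hy, fun h => hy.ne (by have := h.1 rfl; exact this.symm)⟩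
  by_cases hu : u = v ∨ G.Adj v u
  · rw [class_compl (K := {w | w = v ∨ G.Adj v w}) hu ?_ ?_]
    · convert hcn using 1
      ext w; simp [not_or]
    · rintro x hx y hxy
      rcases hadj x y hxy with ⟨_, h⟩ | ⟨h, _⟩
      · exact Or.inr h
      · exact Or.inl h
    · have hv : (cut G {v}).Reachable u v := by
        rcases hu with rfl | hu
        · exact SimpleGraph.Reachable.refl _
        · exact (hcut u hu).symm.reachable
      rintro y (rfl | hy)
      · exact hv
      · exact hv.trans (hcut y hy).reachable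
  · rw [class_single]
    · exact h2 u
    · intro y hy
      rcases hadj u y hy with ⟨h, _⟩ | ⟨_, h⟩
      · exact hu (Or.inl h)
      · exact hu (Or.inr h)

/-- a twin end: `Z` is a set of at least two vertices with neighbourhood `T`, and the other
vertices form a connected set to which every vertex of `T` is joined -/
structure End (G : SimpleGraph V) (T Z : Set V) : Prop where
  two : ∃ z1 ∈ Z, ∃ z2 ∈ Z, z1 ≠ z2
  nb : ∀ z ∈ Z, ∀ y, G.Adj z y ↔ y ∈ T
  cn : Cn G (T ∪ Z)ᶜ
  out : ∀ t ∈ T, ∃ d, d ∉ T ∧ d ∉ Z ∧ G.Adj t d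

theorem End.disj {T Z : Set V} (h : End G T Z) {x : V} (hT : x ∈ T) (hZ : x ∈ Z) : False :=
  (((h.nb x hZ x).2 hT).ne rfl)

theorem End.indep (htf : TF G) {T Z : Set V} (h : End G T Z) {x y : V} (hx : x ∈ T) (hy : y ∈ T) :
    ¬ G.Adj x y := by
  intro hxy
  obtain ⟨z, hz, _⟩ := h.two
  exact htf z x y ((h.nb z hz x).2 hx) hxy ((h.nb z hz y).2 hy)

theorem End.other (hG : Cn G univ) (h2 : ∀ v : V, Cn G {w | w ≠ v}) {T Z : Set V} (h : End G T Z)
    (t : V) : ∃ t' ∈ T, t' ≠ t := by
  by_contra hcon
  push Not at hcon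
  obtain ⟨z1, hz1, z2, hz2, hne⟩ := h.two
  obtain ⟨d, hd⟩ := h.cn.1
  have hdT : d ∉ T := fun h' => hd (Or.inl h')
  have hdZ : d ∉ Z := fun h' => hd (Or.inr h')
  by_cases ht : t ∈ Z
  · -- then `T` is empty
    have hT : ∀ y, y ∉ T := fun y hy => h.disj hy ((hcon y hy) ▸ ht)
    have := hG.2 {z1} (subset_univ _) ⟨z1, rfl⟩ (by
      rintro x rfl y _ hxy
      exact absurd ((h.nb _ hz1 y).1 hxy) (hT y))
    have h' : z2 ∈ ({z1} : Set V) := by rw [this]; trivial
    exact hne h'.symm
  · by_cases htd : t = d
    · have hT : ∀ y, y ∉ T := fun y hy => hdT (htd ▸ (hcon y hy) ▸ hy)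
      have := hG.2 {z1} (subset_univ _) ⟨z1, rfl⟩ (by
        rintro x rfl y _ hxy
        exact absurd ((h.nb _ hz1 y).1 hxy) (hT y))
      have h' : z2 ∈ ({z1} : Set V) := by rw [this]; trivial
      exact hne h'.symm
    · refine Pool.Agent.U385.Bond.two h2 (X := Z) ⟨z1, hz1⟩ ht hdZ (fun h => htd h.symm) ?_
      intro x hx w hxw
      exact Or.inr (hcon w ((h.nb x hx w).1 hxw))

/-- if there is no contractible bond, then the bond between `{t, z1}` and the rest is not
contractible -/
theorem pair_bad [Fintype V] (h3 : 3 ≤ Fintype.card V) (hG : Cn G univ)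
    (h2 : ∀ v : V, Cn G {w | w ≠ v}) (htf : TF G) (hno : ¬ Concl G) {T Z : Set V}
    (hE : End G T Z) {t z : V} (ht : t ∈ T) (hz : z ∈ Z) :
    ¬ Cn G {w | w ≠ t ∧ (G.Adj t w → w = z)} := by
  intro hcn
  apply hno
  have hzt : G.Adj z t := (hE.nb z hz t).2 ht
  obtain ⟨t', ht', htt'⟩ := hE.other hG h2 t
  have hzT : ∀ y, y ∈ T → G.Adj z y := fun y hy => (hE.nb z hz y).2 hy
  have hDc : (T ∪ Z)ᶜ ⊆ ({t, z} : Set V)ᶜ := by
    intro x hx hx'
    rcases hx' with rfl | hx'
    · exact hx (Or.inl ht)
    · rw [mem_singleton_iff] at hx'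
      subst hx'
      exact hx (Or.inr hz)
  refine concl_of_cut h3 hG h2 (A := {t, z}) (cn_pair hzt.symm) ?_ ?_
  · -- the other side is connected
    refine cn_of_core hDc hE.cn ?_
    intro x hx
    by_cases hxT : x ∈ T
    · obtain ⟨d, hdT, hdZ, htd⟩ := hE.out x hxT
      exact ⟨{x}, rfl, singleton_subset_iff.2 hx, cn_singleton x, x, rfl, d,
        fun h => h.elim hdT hdZ, Or.inr htd⟩
    · by_cases hxZ : x ∈ Z
      · obtain ⟨d, hdT, hdZ, htd⟩ := hE.out t' ht'
        have hxt' : G.Adj x t' := (hE.nb x hxZ t').2 ht'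
        refine ⟨{x, t'}, Or.inl rfl, ?_, cn_pair hxt', t', Or.inr rfl, d,
          fun h => h.elim hdT hdZ, Or.inr htd⟩
        rintro y (rfl | hy)
        · exact hx
        · rw [mem_singleton_iff] at hy
          subst hy
          rintro (h | h)
          · exact htt' h
          · rw [mem_singleton_iff] at h
            subst h
            exact hE.disj ht' hz
      · exact ⟨{x}, rfl, singleton_subset_iff.2 hx, cn_singleton x, x, rfl, x,
          fun h => h.elim hxT hxZ, Or.inl rfl⟩
  · intro v
    have htz : t ≠ z := hzt.ne.symm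
    -- edges of the cut
    have hadj : ∀ x y, (cut G {t, z}).Adj x y →
        (x = t ∧ G.Adj t y ∧ y ≠ z) ∨ (y = t ∧ G.Adj t x ∧ x ≠ z) ∨
        (x = z ∧ y ∈ T ∧ y ≠ t) ∨ (y = z ∧ x ∈ T ∧ x ≠ t) := by
      rintro x y ⟨hxy, hne⟩
      by_cases hx : x = t
      · subst hx
        refine Or.inl ⟨rfl, hxy, fun hyz => hne ?_⟩
        simp [hyz]
      · by_cases hy : y = t
        · subst hy
          refine Or.inr (Or.inl ⟨rfl, hxy.symm, fun hyz => hne ?_⟩)
          simp [hyz]
        · by_cases hxz : x = z
          · subst hxz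
            exact Or.inr (Or.inr (Or.inl ⟨rfl, (hE.nb _ hz y).1 hxy, hy⟩))
          · by_cases hyz : y = z
            · subst hyz
              exact Or.inr (Or.inr (Or.inr ⟨rfl, (hE.nb _ hz x).1 hxy.symm, hx⟩))
            · exact absurd (by simp [hx, hy, hxz, hyz]) hne
    have hcut1 : ∀ y, G.Adj t y → y ≠ z → (cut G {t, z}).Adj t y := fun y hy hyz =>
      ⟨hy, fun h => by
        have := h.1 (Or.inl rfl)
        rcases this with h | h
        · exact hy.ne h.symm
        · exact hyz h⟩
    have hcut2 : ∀ y, y ∈ T → y ≠ t → (cut G {t, z}).Adj z y := fun y hy hyt =>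
      ⟨hzT y hy, fun h => by
        have := h.1 (Or.inr rfl)
        rcases this with h | h
        · exact hyt h
        · exact (hzT y hy).ne h.symm⟩
    by_cases hv1 : v = t ∨ (G.Adj t v ∧ v ≠ z)
    · rw [class_compl (K := {w | w = t ∨ (G.Adj t w ∧ w ≠ z)}) hv1 ?_ ?_]
      · convert hcn using 1
        ext w
        simp only [mem_compl_iff, mem_setOf_eq, not_or, not_and, not_not]
      · rintro x hx y hxy
        rcases hadj x y hxy with ⟨_, h1, h2'⟩ | ⟨h, _⟩ | ⟨h, h1, h2'⟩ | ⟨h, h1, h2'⟩
        · exact Or.inr ⟨h1, h2'⟩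
        · exact Or.inl h
        · subst h
          rcases hx with hx | hx
          · exact absurd hx.symm htz
          · exact absurd rfl hx.2
        · rcases hx with hx | hx
          · exact absurd hx h2'
          · exact absurd hx.1 (hE.indep htf ht h1)
      · have hv : (cut G {t, z}).Reachable v t := by
          rcases hv1 with rfl | ⟨h, h'⟩
          · exact SimpleGraph.Reachable.refl _
          · exact (hcut1 v h h').symm.reachable
        rintro y (rfl | ⟨h, h'⟩)
        · exact hv
        · exact hv.trans (hcut1 y h h').reachable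
    · by_cases hv2 : v = z ∨ (v ∈ T ∧ v ≠ t)
      · rw [class_compl (K := {w | w = z ∨ (w ∈ T ∧ w ≠ t)}) hv2 ?_ ?_]
        · -- the complement of the second class
          refine cn_of_core (C := (T ∪ Z)ᶜ) ?_ hE.cn ?_
          · rintro x hx (h | h)
            · subst h; exact hx (Or.inr hz)
            · exact hx (Or.inl h.1)
          · have htin : t ∈ ({w | w = z ∨ (w ∈ T ∧ w ≠ t)} : Set V)ᶜ := by
              rintro (h | h)
              · exact htz h
              · exact h.2 rfl
            intro x hx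
            by_cases hxt : x = t
            · subst hxt
              obtain ⟨d, hdT, hdZ, htd⟩ := hE.out x ht
              exact ⟨{x}, rfl, singleton_subset_iff.2 hx, cn_singleton x, x, rfl, d,
                fun h => h.elim hdT hdZ, Or.inr htd⟩
            · by_cases hxZ : x ∈ Z
              · obtain ⟨d, hdT, hdZ, htd⟩ := hE.out t ht
                refine ⟨{x, t}, Or.inl rfl, ?_, cn_pair ((hE.nb x hxZ t).2 ht), t, Or.inr rfl, d,
                  fun h => h.elim hdT hdZ, Or.inr htd⟩
                rintro y (rfl | hy)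
                · exact hx
                · rw [mem_singleton_iff] at hy
                  subst hy
                  exact htin
              · have hxT : x ∉ T := fun h => hx (Or.inr ⟨h, hxt⟩)
                exact ⟨{x}, rfl, singleton_subset_iff.2 hx, cn_singleton x, x, rfl, x,
                  fun h => h.elim hxT hxZ, Or.inl rfl⟩
        · rintro x hx y hxy
          rcases hadj x y hxy with ⟨h, h1, h2'⟩ | ⟨h, h1, h2'⟩ | ⟨h, h1, h2'⟩ | ⟨h, _⟩
          · subst h
            rcases hx with hx | hx
            · exact absurd hx htz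
            · exact absurd rfl hx.2
          · rcases hx with hx | hx
            · exact absurd hx h2'
            · exact absurd h1 (hE.indep htf ht hx.1)
          · exact Or.inr ⟨h1, h2'⟩
          · exact Or.inl h
        · have hv : (cut G {t, z}).Reachable v z := by
            rcases hv2 with rfl | ⟨h, h'⟩
            · exact SimpleGraph.Reachable.refl _
            · exact (hcut2 v h h').symm.reachable
          rintro y (rfl | ⟨h, h'⟩)
          · exact hv
          · exact hv.trans (hcut2 y h h').reachable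
      · rw [class_single]
        · exact h2 v
        · intro y hy
          rcases hadj v y hy with ⟨h, _⟩ | ⟨_, h⟩ | ⟨h, _⟩ | ⟨_, h⟩
          · exact hv1 (Or.inl h)
          · exact hv1 (Or.inr h)
          · exact hv2 (Or.inl h)
          · exact hv2 (Or.inr h)

end Pool.Agent.U385.Bond
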