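import Pool.Agent.U385.Bond2

set_option autoImplicit false

/-!
# Contractible bonds: valid components and the existence of twin ends
-/

namespace Pool.Agent.U385.Bond

open Set

variable {V : Type} {G : SimpleGraph V}

/-- a component, not joined to `T`, of the graph left when `T`, `Z` and the neighbours of `t` are
deleted -/
def Valid (G : SimpleGraph V) (T Z : Set V) (t : V) (Q : Set V) : Prop :=
  IsCp G {x | x ∉ T ∧ x ∉ Z ∧ ¬ G.Adj t x} Q ∧ ∀ x ∈ Q, ∀ y ∈ T, ¬ G.Adj x y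

/-- the open neighbourhood of a set -/
def NS (G : SimpleGraph V) (X : Set V) : Set V := {y | y ∉ X ∧ ∃ x ∈ X, G.Adj x y}

theorem exists_valid (hG : Cn G univ) (h2 : ∀ v : V, Cn G {w | w ≠ v}) (htf : TF G) {T Z : Set V}
    (hE : End G T Z) {t z : V} (ht : t ∈ T) (hz : z ∈ Z)
    (hbad : ¬ Cn G {w | w ≠ t ∧ (G.Adj t w → w = z)}) : ∃ Q, Valid G T Z t Q := by
  by_contra hcon
  push Not at hcon
  apply hbad
  have hzT : ∀ y, y ∈ T → G.Adj z y := fun y hy => (hE.nb z hz y).2 hy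
  obtain ⟨t', ht', htt'⟩ := hE.other hG h2 t
  -- the core
  have hcore : Cn G ({z} ∪ {y | y ∈ T ∧ y ≠ t}) := by
    refine cn_of_core (C := {z}) subset_union_left (cn_singleton z) ?_
    rintro x (hx | ⟨hx, hxt⟩)
    · rw [mem_singleton_iff] at hx
      subst hx
      exact ⟨{x}, rfl, subset_union_left, cn_singleton x, x, rfl, x, rfl, Or.inl rfl⟩
    · exact ⟨{x}, rfl, singleton_subset_iff.2 (Or.inr ⟨hx, hxt⟩), cn_singleton x, x, rfl, z, rfl,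
        Or.inr (hzT x hx).symm⟩
  have hzt : z ≠ t := (hzT t ht).ne
  have hsub : ({z} ∪ {y | y ∈ T ∧ y ≠ t} : Set V) ⊆ {w | w ≠ t ∧ (G.Adj t w → w = z)} := by
    rintro x (hx | ⟨hx, hxt⟩)
    · rw [mem_singleton_iff] at hx
      subst hx
      exact ⟨hzt, fun _ => rfl⟩
    · exact ⟨hxt, fun h => absurd h (hE.indep htf ht hx)⟩
  refine cn_of_core hsub hcore ?_
  rintro x ⟨hxt, hx⟩
  by_cases hxc : x ∈ ({z} ∪ {y | y ∈ T ∧ y ≠ t} : Set V)
  · exact ⟨{x}, rfl, singleton_subset_iff.2 ⟨hxt, hx⟩, cn_singleton x, x, rfl, x, hxc, Or.inl rfl⟩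
  · have hxz : x ≠ z := fun h => hxc (Or.inl h)
    have hxT : x ∉ T := fun h => hxc (Or.inr ⟨h, hxt⟩)
    have hxa : ¬ G.Adj t x := fun h => hxz (hx h)
    have hxZ : x ∉ Z := fun h => hxa ((hE.nb x h t).2 ht).symm
    obtain ⟨Q, hxQ, hQ⟩ := exists_cp (G := G) (W := {x | x ∉ T ∧ x ∉ Z ∧ ¬ G.Adj t x})
      ⟨hxT, hxZ, hxa⟩
    have hnv := hcon Q
    have hnv' : ∃ p ∈ Q, ∃ y ∈ T, G.Adj p y := by
      by_contra h
      push Not at h
      exact hnv ⟨hQ, h⟩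
    obtain ⟨p, hp, y, hy, hpy⟩ := hnv'
    refine ⟨Q, hxQ, ?_, hQ.2.1, p, hp, y, Or.inr ⟨hy, ?_⟩, Or.inr hpy⟩
    · intro q hq
      have := hQ.1 hq
      exact ⟨fun h => this.1 (h ▸ ht), fun h => absurd h this.2.2⟩
    · rintro rfl
      exact (hQ.1 hp).2.2 hpy.symm

theorem exists_end [Fintype V] (hG : Cn G univ) (htf : TF G)
    (hstar : ∀ v, ¬ Cn G {w | w ≠ v ∧ ¬ G.Adj v w}) {v : V} {D U : Set V}
    (hD : IsCp G {w | w ≠ v ∧ ¬ G.Adj v w} D) (hU : U ⊆ D) :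
    ∃ T Z, End G T Z ∧ ∀ x ∈ U, x ∉ T ∧ x ∉ Z := by
  classical
  obtain ⟨⟨v', D'⟩, ⟨hD', hUD'⟩, hmax⟩ := Set.exists_max_image
    {p : V × Set V | IsCp G {w | w ≠ p.1 ∧ ¬ G.Adj p.1 w} p.2 ∧ U ⊆ p.2}
    (fun p => p.2.ncard) (Set.toFinite _) ⟨(v, D), hD, hU⟩
  simp only at hD' hUD' hmax
  -- a vertex outside `D'` and its neighbourhood is complete to the neighbourhood of `D'`
  have key : ∀ w, w ∉ D' → w ∉ NS G D' → ∀ y ∈ NS G D', G.Adj w y := by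
    intro w hwD hwN y hy
    have hsub : D' ⊆ {x | x ≠ w ∧ ¬ G.Adj w x} := by
      intro x hx
      refine ⟨fun h => hwD (h ▸ hx), fun h => hwN ⟨hwD, x, hx, h.symm⟩⟩
    obtain ⟨x0, hx0⟩ := hD'.2.1.1
    obtain ⟨D'', hx0D, hD''⟩ := exists_cp (G := G) (hsub hx0)
    have hsub' : D' ⊆ D'' := cp_absorb hD'' hD'.2.1 hsub hx0 hx0D
    have hle := hmax (w, D'') ⟨hD'', hUD'.trans hsub'⟩
    have heq : D' = D'' := Set.eq_of_subset_of_ncard_le hsub' hle (Set.toFinite _)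
    by_contra hwy
    obtain ⟨hyD, x, hx, hxy⟩ := hy
    have hyw : y ≠ w := by
      rintro rfl
      exact hwN ⟨hyD, x, hx, hxy⟩
    exact hyD (heq ▸ hD''.2.2 x (heq ▸ hx) y ⟨hyw, hwy⟩ hxy)
  have hv'D : v' ∉ D' := fun h => (hD'.1 h).1 rfl
  have hv'N : v' ∉ NS G D' := by
    rintro ⟨_, x, hx, hxv⟩
    exact (hD'.1 hx).2 hxv.symm
  -- the neighbourhood is nonempty
  have hNne : ∃ y, y ∈ NS G D' := by
    by_contra hcon
    push Not at hcon
    have := hG.2 D' (subset_univ _) hD'.2.1.1 (by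
      intro x hx y _ hxy
      by_contra hy
      exact hcon y ⟨hy, x, hx, hxy⟩)
    exact hv'D (this ▸ mem_univ v')
  obtain ⟨y0, hy0⟩ := hNne
  let Z : Set V := {w | w ∉ D' ∧ w ∉ NS G D'}
  have hcompl : (NS G D' ∪ Z)ᶜ = D' := by
    ext x
    simp only [mem_compl_iff, mem_union, Z]
    constructor
    · intro h
      by_contra hx
      exact h (Or.inr ⟨hx, fun h' => h (Or.inl h')⟩)
    · rintro hx (h | h)
      · exact h.1 hx
      · exact h.1 hx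
  refine ⟨NS G D', Z, ⟨⟨v', ⟨hv'D, hv'N⟩, ?_⟩, ?_, ?_, ?_⟩, ?_⟩
  · -- another vertex of `Z`
    by_contra hcon
    push Not at hcon
    apply hstar v'
    have : {w | w ≠ v' ∧ ¬ G.Adj v' w} = D' := by
      refine Subset.antisymm ?_ hD'.1
      rintro w ⟨hw1, hw2⟩
      by_contra hwD
      by_cases hwN : w ∈ NS G D'
      · exact hw2 (key v' hv'D hv'N w hwN)
      · exact hw1 (hcon w ⟨hwD, hwN⟩).symm
    rw [this]
    exact hD'.2.1
  · rintro z ⟨hzD, hzN⟩ y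
    refine ⟨fun hzy => ?_, fun hy => key z hzD hzN y hy⟩
    by_contra hyN
    have hyD : y ∉ D' := fun h => hzN ⟨hzD, y, h, hzy.symm⟩
    exact htf z y y0 hzy (key y hyD hyN y0 hy0) (key z hzD hzN y0 hy0)
  · rw [hcompl]; exact hD'.2.1
  · rintro t ⟨htD, x, hx, hxt⟩
    exact ⟨x, fun h => h.1 hx, fun h => h.1 hx, hxt.symm⟩
  · intro x hx
    exact ⟨fun h => h.1 (hUD' hx), fun h => h.1 (hUD' hx)⟩

/-- five disjoint connected sets, pairwise joined -/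
def K5 (G : SimpleGraph V) : Prop :=
  ∃ f : Fin 5 → Set V, (∀ i, Cn G (f i)) ∧ (∀ i j, i ≠ j → Disjoint (f i) (f j)) ∧
    (∀ i j, i ≠ j → ∃ u ∈ f i, ∃ v ∈ f j, G.Adj u v)

theorem k5_of (f : Fin 5 → Set V) (hc : ∀ i, Cn G (f i))
    (hd : ∀ i j, i < j → Disjoint (f i) (f j))
    (ha : ∀ i j, i < j → ∃ u ∈ f i, ∃ v ∈ f j, G.Adj u v) : K5 G := by
  refine ⟨f, hc, fun i j hij => ?_, fun i j hij => ?_⟩
  · rcases lt_or_gt_of_ne hij with h | h
    · exact hd i j h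
    · exact (hd j i h).symm
  · rcases lt_or_gt_of_ne hij with h | h
    · exact ha i j h
    · obtain ⟨u, hu, v, hv, huv⟩ := ha j i h
      exact ⟨v, hv, u, hu, huv.symm⟩

/-- the two forms of the `K₅` minor that we use -/
theorem k5_five {A B C D E : Set V} (hA : Cn G A) (hB : Cn G B) (hC : Cn G C) (hD : Cn G D)
    (hE : Cn G E)
    (dAB : Disjoint A B) (dAC : Disjoint A C) (dAD : Disjoint A D) (dAE : Disjoint A E)
    (dBC : Disjoint B C) (dBD : Disjoint B D) (dBE : Disjoint B E)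
    (dCD : Disjoint C D) (dCE : Disjoint C E) (dDE : Disjoint D E)
    (aAB : ∃ u ∈ A, ∃ v ∈ B, G.Adj u v) (aAC : ∃ u ∈ A, ∃ v ∈ C, G.Adj u v)
    (aAD : ∃ u ∈ A, ∃ v ∈ D, G.Adj u v) (aAE : ∃ u ∈ A, ∃ v ∈ E, G.Adj u v)
    (aBC : ∃ u ∈ B, ∃ v ∈ C, G.Adj u v) (aBD : ∃ u ∈ B, ∃ v ∈ D, G.Adj u v)
    (aBE : ∃ u ∈ B, ∃ v ∈ E, G.Adj u v) (aCD : ∃ u ∈ C, ∃ v ∈ D, G.Adj u v)
    (aCE : ∃ u ∈ C, ∃ v ∈ E, G.Adj u v) (aDE : ∃ u ∈ D, ∃ v ∈ E, G.Adj u v) : K5 G := by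
  refine k5_of ![A, B, C, D, E] ?_ ?_ ?_
  · intro i
    fin_cases i <;> assumption
  · intro i j hij
    fin_cases i <;> fin_cases j <;>
      first
        | assumption
        | (exfalso; revert hij; decide)
  · intro i j hij
    fin_cases i <;> fin_cases j <;>
      first
        | assumption
        | (exfalso; revert hij; decide)

end Pool.Agent.U385.Bond
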