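import Pool.Agent.U385.Bond3

set_option autoImplicit false

/-!
# Contractible bonds: the descent
-/

namespace Pool.Agent.U385.Bond

open Set

variable {V : Type} {G : SimpleGraph V}

/-- the region hidden behind the neighbours of `t` -/
def Hid (G : SimpleGraph V) (T Z : Set V) (t : V) : Set V :=
  {x | x ∉ T ∧ x ∉ Z ∧ (G.Adj t x ∨ ∃ Q, Valid G T Z t Q ∧ x ∈ Q)}

/-- no two vertices have three common neighbours, two of which have degree two -/
def NoFat (G : SimpleGraph V) : Prop :=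
  ∀ a b z z' t, a ≠ b → z ≠ z' → t ≠ z → t ≠ z' → (∀ y, G.Adj z y ↔ y = a ∨ y = b) →
    (∀ y, G.Adj z' y ↔ y = a ∨ y = b) → G.Adj t a → G.Adj t b → False

theorem NS_valid {T Z : Set V} {t : V} {Q : Set V} (hE : End G T Z) (hQ : Valid G T Z t Q) :
    ∀ y ∈ NS G Q, y ∉ T ∧ y ∉ Z ∧ G.Adj t y := by
  rintro y ⟨hyQ, x, hx, hxy⟩
  have hxD := hQ.1.1 hx
  have hyT : y ∉ T := fun h => hQ.2 x hx y h hxy
  have hyZ : y ∉ Z := fun h => hxD.1 ((hE.nb y h x).1 hxy.symm)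
  refine ⟨hyT, hyZ, ?_⟩
  by_contra hty
  exact hyQ (hQ.1.2.2 x hx y ⟨hyT, hyZ, hty⟩ hxy)

theorem third {T : Set V} {a : V} (ha : a ∈ T) {b : V} (hb : b ∈ T) (hab : b ≠ a)
    (h : ¬ ∀ y, y ∈ T ↔ y = a ∨ y = b) : ∃ c ∈ T, c ≠ a ∧ c ≠ b := by
  by_contra hcon
  push Not at hcon
  apply h
  intro y
  constructor
  · intro hy
    by_cases hya : y = a
    · exact Or.inl hya
    · exact Or.inr (hcon y hy hya)
  · rintro (rfl | rfl)
    · exact ha
    · exact hb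

theorem main [Fintype V] (h3 : 3 ≤ Fintype.card V) (hG : Cn G univ)
    (h2 : ∀ v : V, Cn G {w | w ≠ v}) (htf : TF G) (hK5 : ¬ K5 G) (hst : NoFat G) : Concl G := by
  classical
  by_contra hno
  have hstar := star_bad h3 hG h2 hno
  have hvalid : ∀ T Z t, End G T Z → t ∈ T → ∃ Q, Valid G T Z t Q := by
    intro T Z t hE ht
    obtain ⟨z, hz, _⟩ := hE.two
    exact exists_valid hG h2 htf hE ht hz (pair_bad h3 hG h2 htf hno hE ht hz)
  -- some end exists
  have hne : ∃ p : (Set V × Set V) × V, End G p.1.1 p.1.2 ∧ p.2 ∈ p.1.1 := by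
    have hV : Nonempty V := by
      rw [← Fintype.card_pos_iff]; omega
    obtain ⟨v⟩ := hV
    obtain ⟨x, hx⟩ : ({w | w ≠ v ∧ ¬ G.Adj v w} : Set V).Nonempty := by
      by_contra hem
      rw [Set.not_nonempty_iff_eq_empty] at hem
      -- then every other vertex is adjacent to `v`
      have hall : ∀ w, w ≠ v → G.Adj v w := by
        intro w hw
        by_contra h
        have : w ∈ ({w | w ≠ v ∧ ¬ G.Adj v w} : Set V) := ⟨hw, h⟩
        rw [hem] at this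
        exact this
      obtain ⟨⟨a, ha⟩, hc⟩ := h2 v
      obtain ⟨c, hcv, hca⟩ : ∃ c, c ≠ v ∧ c ≠ a := by
        by_contra hcon
        push Not at hcon
        have : (Finset.univ : Finset V) ⊆ {v, a} := fun c _ => by
          rw [Finset.mem_insert, Finset.mem_singleton]
          by_cases h : c = v
          · exact Or.inl h
          · exact Or.inr (hcon c h)
        have := Finset.card_le_card this
        rw [Finset.card_univ] at this
        have := this.trans Finset.card_le_two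
        omega
      have := hc {a} (singleton_subset_iff.2 ha) ⟨a, rfl⟩ (by
        rintro x rfl y hy hxy
        exact (htf v x y (hall x ha) hxy (hall y hy)).elim)
      have h' : c ∈ ({a} : Set V) := by rw [this]; exact hcv
      exact hca h'
    obtain ⟨D, _, hD⟩ := exists_cp (G := G) hx
    obtain ⟨T, Z, hE, _⟩ := exists_end hG htf hstar hD (U := ∅) (empty_subset _)
    obtain ⟨t, ht, _⟩ := hE.other hG h2 v
    exact ⟨⟨⟨T, Z⟩, t⟩, hE, ht⟩
  obtain ⟨⟨⟨T, Z⟩, t⟩, ⟨hE, ht⟩, hmin⟩ := Set.exists_min_image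
    {p : (Set V × Set V) × V | End G p.1.1 p.1.2 ∧ p.2 ∈ p.1.1}
    (fun p => (Hid G p.1.1 p.1.2 p.2).ncard) (Set.toFinite _) hne
  simp only at hE ht hmin
  -- a valid component with minimal neighbourhood
  obtain ⟨Q, hQ, hQmin⟩ := Set.exists_min_image {Q : Set V | Valid G T Z t Q}
    (fun Q => (NS G Q).ncard) (Set.toFinite _) (hvalid T Z t hE ht)
  simp only [mem_setOf_eq] at hQ hQmin
  obtain ⟨S, hS⟩ : ∃ S, S = NS G Q := ⟨_, rfl⟩
  have hSprop : ∀ y ∈ S, y ∉ T ∧ y ∉ Z ∧ G.Adj t y := by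
    intro y hy; rw [hS] at hy; exact NS_valid hE hQ y hy
  have htS : t ∉ S := fun h => (hSprop t h).1 ht
  obtain ⟨U, htU, hU⟩ := exists_cp (G := G) (W := Sᶜ) htS
  have htT : ∀ z ∈ Z, G.Adj z t := fun z hz => (hE.nb z hz t).2 ht
  have hZU : ∀ z ∈ Z, z ∈ U := fun z hz =>
    hU.2.2 t htU z (fun h => (hSprop z h).2.1 hz) (htT z hz).symm
  obtain ⟨z0, hz0, z0', hz0', hz00⟩ := hE.two
  have hTU : ∀ y ∈ T, y ∈ U := fun y hy =>
    hU.2.2 z0 (hZU z0 hz0) y (fun h => (hSprop y h).1 hy) ((hE.nb z0 hz0 y).2 hy)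
  -- components of `Sᶜ` other than `U` are valid, with neighbourhood `S`
  have hcomp : ∀ R, IsCp G Sᶜ R → t ∉ R → Valid G T Z t R ∧ NS G R = S := by
    intro R hR htR
    have hRU : ∀ x ∈ R, x ∉ U := by
      intro x hx hxU
      exact htR (cp_eq hU hR hxU hx ▸ htU)
    have hRt : ∀ x ∈ R, ¬ G.Adj t x := fun x hx h =>
      hRU x hx (hU.2.2 t htU x (hR.1 hx) h)
    have hV : Valid G T Z t R := by
      refine ⟨⟨fun x hx => ⟨fun h => hRU x hx (hTU x h), fun h => hRU x hx (hZU x h), hRt x hx⟩,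
        hR.2.1, ?_⟩, ?_⟩
      · rintro x hx y ⟨hyT, hyZ, hty⟩ hxy
        exact hR.2.2 x hx y (fun h => hty (hSprop y h).2.2) hxy
      · intro x hx y hy hxy
        exact hRU x hx (hU.2.2 y (hTU y hy) x (hR.1 hx) hxy.symm)
    refine ⟨hV, ?_⟩
    have hsub : NS G R ⊆ S := by
      rintro y ⟨hyR, x, hx, hxy⟩
      by_contra hyS
      exact hyR (hR.2.2 x hx y hyS hxy)
    refine Set.eq_of_subset_of_ncard_le hsub ?_ (Set.toFinite _)
    rw [hS]
    exact hQmin R hV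
  -- the vertices outside `U` are hidden
  have hhid : ∀ x, x ∉ U → x ∈ Hid G T Z t := by
    intro x hx
    refine ⟨fun h => hx (hTU x h), fun h => hx (hZU x h), ?_⟩
    by_cases hxS : x ∈ S
    · exact Or.inl (hSprop x hxS).2.2
    · obtain ⟨R, hxR, hR⟩ := exists_cp (G := G) (W := Sᶜ) hxS
      refine Or.inr ⟨R, (hcomp R hR fun h => hx ?_).1, hxR⟩
      exact cp_eq hR hU h htU ▸ hxR
  have hSU : ∀ s ∈ S, s ∉ U := fun s hs h => hU.1 h hs
  -- an end inside the complement of `U`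
  obtain ⟨x, hxQ⟩ := hQ.1.2.1.1
  have hQS : ∀ y ∈ Q, y ∉ S := by
    intro y hy h
    rw [hS] at h
    exact h.1 hy
  have hQU : ∀ y ∈ Q, y ∉ U := by
    intro y hy hyU
    -- `Q` is closed in `Sᶜ`
    have : Q ⊆ Sᶜ := fun y hy => hQS y hy
    have hcl : IsCp G Sᶜ Q := ⟨this, hQ.1.2.1, fun a ha b hb hab => by
      by_contra hbQ
      exact hb (hS ▸ ⟨hbQ, a, ha, hab⟩)⟩
    have htQ : t ∈ Q := cp_eq hU hcl hyU hy ▸ htU
    exact (hQ.1.1 htQ).1 ht
  have hUx : ∀ y ∈ U, y ≠ x ∧ ¬ G.Adj x y := by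
    intro y hy
    refine ⟨fun h => hQU x hxQ (h ▸ hy), fun h => ?_⟩
    by_cases hyQ : y ∈ Q
    · exact hQU y hyQ hy
    · exact hU.1 hy (hS ▸ ⟨hyQ, x, hxQ, h⟩)
  obtain ⟨D0, htD0, hD0⟩ := exists_cp (G := G) (W := {w | w ≠ x ∧ ¬ G.Adj x w}) (hUx t htU)
  have hUD0 : U ⊆ D0 := cp_absorb hD0 hU.2.1 hUx htU htD0
  obtain ⟨T', Z', hE', hUE'⟩ := exists_end hG htf hstar hD0 hUD0
  have hTT' : t ∉ T' := (hUE' t htU).1
  have hZ'S : ∀ z ∈ Z', z ∉ S := by
    intro z hz hzS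
    exact hTT' ((hE'.nb z hz t).1 (hSprop z hzS).2.2.symm)
  have hZ'U : ∀ z ∈ Z', z ∉ U := fun z hz h => (hUE' z h).2 hz
  obtain ⟨w1, hw1, w2, hw2, hw12⟩ := hE'.two
  by_cases hcase : T' ⊆ S
  · -- the neighbourhood of the end is `S`
    have hTS : T' = S := by
      obtain ⟨R, hwR, hR⟩ := exists_cp (G := G) (W := Sᶜ) (hZ'S w1 hw1)
      have htR : t ∉ R := fun h => hZ'U w1 hw1 (cp_eq hR hU h htU ▸ hwR)
      have hR1 : R = {w1} := by
        have := hR.2.1.2 {w1} (singleton_subset_iff.2 hwR) ⟨w1, rfl⟩ (by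
          rintro a rfl y hy hay
          exact absurd (hcase ((hE'.nb _ hw1 y).1 hay)) (hR.1 hy))
        exact this.symm
      have hNS := (hcomp R hR htR).2
      rw [hR1] at hNS
      refine Subset.antisymm hcase fun s hs => ?_
      rw [← hNS] at hs
      obtain ⟨_, a, ha, has⟩ := hs
      rw [mem_singleton_iff] at ha
      subst ha
      exact (hE'.nb _ hw1 s).1 has
    subst hTS
    have htadj : ∀ s ∈ T', G.Adj t s := fun s hs => (hSprop s hs).2.2
    have htZ' : t ∉ Z' := fun h => hZ'U t h htU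
    -- three elements
    obtain ⟨s1, hs1, _⟩ := hE'.other hG h2 t
    obtain ⟨s2, hs2, hs21⟩ := hE'.other hG h2 s1
    obtain ⟨s3, hs3, hs31, hs32⟩ := third hs1 hs2 hs21 (by
      intro hall
      exact hst s1 s2 w1 w2 t hs21.symm hw12 (fun h => htZ' (h ▸ hw1)) (fun h => htZ' (h ▸ hw2))
        (fun y => (hE'.nb _ hw1 y).trans (hall y)) (fun y => (hE'.nb _ hw2 y).trans (hall y))
        (htadj _ hs1) (htadj _ hs2))
    -- the piece containing the old end
    have hz0W : z0 ∈ {y | y ≠ t ∧ y ∉ T' ∧ y ∉ Z'} :=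
      ⟨(htT z0 hz0).ne, fun h => hSU z0 h (hZU z0 hz0), fun h => hZ'U z0 h (hZU z0 hz0)⟩
    obtain ⟨X, hz0X, hX⟩ := exists_cp (G := G) hz0W
    obtain ⟨t1, ht1, ht1t⟩ := hE.other hG h2 t
    have hTX : ∀ y ∈ T, y ≠ t → y ∈ X := fun y hy hyt =>
      hX.2.2 z0 hz0X y ⟨hyt, fun h => hSU y h (hTU y hy), fun h => hZ'U y h (hTU y hy)⟩
        ((hE.nb z0 hz0 y).2 hy)
    have hZX : ∀ z ∈ Z, z ∈ X := fun z hz =>
      hX.2.2 t1 (hTX t1 ht1 ht1t) z ⟨(htT z hz).ne, fun h => hSU z h (hZU z hz),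
        fun h => hZ'U z h (hZU z hz)⟩ ((hE.nb z hz t1).2 ht1).symm
    -- some `s` has no neighbour in `X`
    have hs : ∃ s ∈ T', ∀ y ∈ X, ¬ G.Adj s y := by
      by_contra hcon
      push Not at hcon
      apply hK5
      have hXn : ∀ y ∈ X, y ≠ t ∧ y ∉ T' ∧ y ∉ Z' := fun y hy => hX.1 hy
      have e : ∀ z ∈ Z', ∀ s ∈ T', G.Adj z s := fun z hz s hs => (hE'.nb z hz s).2 hs
      have nz : ∀ z ∈ Z', ∀ s ∈ T', z ≠ s := fun z hz s hs => (e z hz s hs).ne
      have nt : ∀ s ∈ T', s ≠ t := fun s hs => (htadj s hs).ne'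
      obtain ⟨y1, hy1, hsy1⟩ := hcon s1 hs1
      obtain ⟨y2, hy2, hsy2⟩ := hcon s2 hs2
      obtain ⟨y3, hy3, hsy3⟩ := hcon s3 hs3
      have hdX : ∀ s ∈ T', ∀ z ∈ Z', Disjoint ({s, z} : Set V) X := by
        intro s hs z hz
        rw [Set.disjoint_left]
        rintro a (rfl | ha) haX
        · exact (hXn a haX).2.1 hs
        · rw [mem_singleton_iff] at ha
          subst ha
          exact (hXn a haX).2.2 hz
      refine k5_five (A := {s1, w1}) (B := {s2, w2}) (C := {s3}) (D := {t}) (E := X)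
        (cn_pair (e w1 hw1 s1 hs1).symm) (cn_pair (e w2 hw2 s2 hs2).symm) (cn_singleton _)
        (cn_singleton _) hX.2.1 ?_ ?_ ?_ (hdX s1 hs1 w1 hw1) ?_ ?_ (hdX s2 hs2 w2 hw2) ?_ ?_ ?_
        ⟨w1, Or.inr rfl, s2, Or.inl rfl, e w1 hw1 s2 hs2⟩
        ⟨w1, Or.inr rfl, s3, rfl, e w1 hw1 s3 hs3⟩
        ⟨s1, Or.inl rfl, t, rfl, (htadj s1 hs1).symm⟩
        ⟨s1, Or.inl rfl, y1, hy1, hsy1⟩
        ⟨w2, Or.inr rfl, s3, rfl, e w2 hw2 s3 hs3⟩
        ⟨s2, Or.inl rfl, t, rfl, (htadj s2 hs2).symm⟩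
        ⟨s2, Or.inl rfl, y2, hy2, hsy2⟩
        ⟨s3, rfl, t, rfl, (htadj s3 hs3).symm⟩
        ⟨s3, rfl, y3, hy3, hsy3⟩
        ⟨t, rfl, z0, hz0X, (htT z0 hz0).symm⟩
      · rw [Set.disjoint_left]
        rintro a (rfl | ha) (hb | hb)
        · exact hs21 hb.symm
        · exact nz w2 hw2 a hs1 (mem_singleton_iff.1 hb).symm
        · exact nz w1 hw1 s2 hs2 ((mem_singleton_iff.1 ha).symm.trans hb)
        · exact hw12 ((mem_singleton_iff.1 ha).symm.trans (mem_singleton_iff.1 hb))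
      · rw [Set.disjoint_left]
        rintro a (rfl | ha) hb
        · exact hs31 (mem_singleton_iff.1 hb).symm
        · exact nz w1 hw1 s3 hs3 ((mem_singleton_iff.1 ha).symm.trans (mem_singleton_iff.1 hb))
      · rw [Set.disjoint_left]
        rintro a (rfl | ha) hb
        · exact nt a hs1 (mem_singleton_iff.1 hb)
        · exact htZ' ((mem_singleton_iff.1 hb) ▸ (mem_singleton_iff.1 ha) ▸ hw1)
      · rw [Set.disjoint_left]
        rintro a (rfl | ha) hb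
        · exact hs32 (mem_singleton_iff.1 hb).symm
        · exact nz w2 hw2 s3 hs3 ((mem_singleton_iff.1 ha).symm.trans (mem_singleton_iff.1 hb))
      · rw [Set.disjoint_left]
        rintro a (rfl | ha) hb
        · exact nt a hs2 (mem_singleton_iff.1 hb)
        · exact htZ' ((mem_singleton_iff.1 hb) ▸ (mem_singleton_iff.1 ha) ▸ hw2)
      · rw [Set.disjoint_left]
        rintro a ha hb
        exact nt s3 hs3 ((mem_singleton_iff.1 ha).symm.trans (mem_singleton_iff.1 hb))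
      · rw [Set.disjoint_left]
        rintro a ha hb
        exact (hXn a hb).2.1 ((mem_singleton_iff.1 ha) ▸ hs3)
      · rw [Set.disjoint_left]
        rintro a ha hb
        exact (hXn a hb).1 (mem_singleton_iff.1 ha)
    obtain ⟨s, hs, hsX⟩ := hs
    -- compare the hidden regions
    have hle := hmin ⟨⟨T', Z'⟩, s⟩ ⟨hE', hs⟩
    simp only at hle
    let Y : Set V := {y | y ≠ t ∧ y ∉ T' ∧ y ∉ Z' ∧ y ∉ X}
    have hsub1 : Hid G T' Z' s ⊆ insert t Y := by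
      rintro y ⟨hyT, hyZ, hy⟩
      by_cases hyt : y = t
      · exact Or.inl hyt
      refine Or.inr ⟨hyt, hyT, hyZ, fun hyX => ?_⟩
      rcases hy with hy | ⟨Q', hQ', hyQ'⟩
      · exact hsX y hyX hy
      · have htQ' : t ∉ Q' := fun h => (hQ'.1.1 h).2.2 (htadj s hs).symm
        have hQ'X : Q' ⊆ X := cp_absorb hX hQ'.1.2.1 (fun a ha =>
          ⟨fun h => htQ' (h ▸ ha), (hQ'.1.1 ha).1, (hQ'.1.1 ha).2.1⟩) hyQ' hyX
        have hsQ' : s ∉ Q' := fun h => (hQ'.1.1 h).1 hs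
        refine Bond.two h2 (X := Q') ⟨y, hyQ'⟩ htQ' hsQ' (htadj s hs).ne' ?_
        intro a ha b hab
        by_contra hcon
        push Not at hcon
        obtain ⟨hbQ, hbt⟩ := hcon
        have hb := NS_valid hE' hQ' b ⟨hbQ, a, ha, hab⟩
        exact hsX b (hX.2.2 a (hQ'X ha) b ⟨hbt, hb.1, hb.2.1⟩ hab) hb.2.2
    have hsub2 : insert s1 (insert s2 Y) ⊆ Hid G T Z t := by
      rintro y (rfl | rfl | hy)
      · exact hhid _ (hSU _ hs1)
      · exact hhid _ (hSU _ hs2)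
      · obtain ⟨hyt, hyT', hyZ', hyX⟩ := hy
        have hyT : y ∉ T := fun h => hyX (hTX y h hyt)
        have hyZ : y ∉ Z := fun h => hyX (hZX y h)
        refine ⟨hyT, hyZ, ?_⟩
        by_cases hty : G.Adj t y
        · exact Or.inl hty
        · obtain ⟨R, hyR, hR⟩ := exists_cp (G := G) (W := {x | x ∉ T ∧ x ∉ Z ∧ ¬ G.Adj t x})
            ⟨hyT, hyZ, hty⟩
          refine Or.inr ⟨R, ⟨hR, ?_⟩, hyR⟩
          obtain ⟨X', hyX', hX'⟩ := exists_cp (G := G) (W := {y | y ≠ t ∧ y ∉ T' ∧ y ∉ Z'})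
            ⟨hyt, hyT', hyZ'⟩
          have hRX' : R ⊆ X' := by
            have := hR.2.1.2 (R ∩ X') inter_subset_left ⟨y, hyR, hyX'⟩ (by
              rintro a ⟨haR, haX'⟩ b hb hab
              refine ⟨hb, ?_⟩
              have hbW := hR.1 hb
              refine hX'.2.2 a haX' b ⟨?_, ?_, ?_⟩ hab
              · rintro rfl; exact hbW.1 ht
              · intro h; exact hbW.2.2 (htadj b h)
              · intro h; exact (hX'.1 haX').2.1 ((hE'.nb b h a).1 hab.symm))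
            rw [← this]; exact inter_subset_right
          intro a ha b hb hab
          by_cases hbt : b = t
          · subst hbt
            exact (hR.1 ha).2.2 hab.symm
          · have hbX := hTX b hb hbt
            have haX : a ∈ X := hX.2.2 b hbX a (hX'.1 (hRX' ha)) hab.symm
            exact hyX (cp_eq hX' hX (hRX' ha) haX ▸ hyX')
    have hc1 := Set.ncard_le_ncard hsub1 (Set.toFinite _)
    have hc2 := Set.ncard_le_ncard hsub2 (Set.toFinite _)
    have hc3 : (insert t Y).ncard ≤ Y.ncard + 1 := Set.ncard_insert_le _ _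
    have hs2Y : s2 ∉ Y := fun h => h.2.1 hs2
    have hs1Y : s1 ∉ insert s2 Y := by
      rintro (h | h)
      · exact hs21 h.symm
      · exact h.2.1 hs1
    rw [Set.ncard_insert_of_notMem hs1Y (Set.toFinite _),
      Set.ncard_insert_of_notMem hs2Y (Set.toFinite _)] at hc2
    omega
  · -- a vertex of `T'` outside `S`
    rw [Set.not_subset] at hcase
    have hT'U : ∀ y ∈ T', y ∉ U := fun y hy h => (hUE' y h).1 hy
    have htZ' : t ∉ Z' := fun h => hZ'U t h htU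
    -- for every such vertex the component containing `U` is valid
    have main1 : ∀ t' ∈ T', t' ∉ S → ∃ P, U ⊆ P ∧ Valid G T' Z' t' P := by
      intro t' ht' ht'S
      obtain ⟨R, ht'R, hR⟩ := exists_cp (G := G) (W := Sᶜ) ht'S
      have htR : t ∉ R := fun h => hT'U t' ht' (cp_eq hR hU h htU ▸ ht'R)
      have hRU : ∀ x ∈ R, x ∉ U := fun x hx hxU => htR (cp_eq hU hR hxU hx ▸ htU)
      have hnU : ∀ y ∈ U, ¬ G.Adj t' y := fun y hy h =>
        hRU y (hR.2.2 t' ht'R y (hU.1 hy) h) hy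
      have hUW : U ⊆ {x | x ∉ T' ∧ x ∉ Z' ∧ ¬ G.Adj t' x} := fun y hy =>
        ⟨(hUE' y hy).1, (hUE' y hy).2, hnU y hy⟩
      obtain ⟨P, htP, hP⟩ := exists_cp (G := G) (hUW htU)
      have hUP : U ⊆ P := cp_absorb hP hU.2.1 hUW htU htP
      refine ⟨P, hUP, hP, ?_⟩
      by_contra hcon
      -- compare the hidden regions
      have hle := hmin ⟨⟨T', Z'⟩, t'⟩ ⟨hE', ht'⟩
      simp only at hle
      have hsub : Hid G T' Z' t' ⊆ Uᶜ \ {w1} := by
        rintro y ⟨hyT, hyZ, hy⟩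
        refine ⟨fun hyU => ?_, fun h => hyZ ((mem_singleton_iff.1 h) ▸ hw1)⟩
        rcases hy with hy | ⟨Q', hQ', hyQ'⟩
        · exact hnU y hyU hy
        · exact hcon (cp_eq hQ'.1 hP hyQ' (hUP hyU) ▸ hQ'.2)
      have hsub' : Uᶜ ⊆ Hid G T Z t := fun y hy => hhid y hy
      have hc1 := Set.ncard_le_ncard hsub (Set.toFinite _)
      have hc2 := Set.ncard_le_ncard hsub' (Set.toFinite _)
      have hc3 : (Uᶜ \ {w1}).ncard < Uᶜ.ncard :=
        Set.ncard_sdiff_singleton_lt_of_mem (hZ'U w1 hw1) (Set.toFinite _)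
      omega
    obtain ⟨t', ht', ht'S⟩ := hcase
    obtain ⟨P, hUP, hP⟩ := main1 t' ht' ht'S
    have hSP : ∀ s ∈ S, s ∉ T' := fun s hs hsT =>
      hP.2 t (hUP htU) s hsT (hSprop s hs).2.2
    -- the component is the same for all vertices of `T'`
    have hNP : ∀ y ∈ NS G P, y ∉ T' ∧ y ∉ Z' ∧ ∀ a ∈ T', G.Adj a y := by
      intro y hy
      have h1 := NS_valid hE' hP y hy
      refine ⟨h1.1, h1.2.1, fun a ha => ?_⟩
      obtain ⟨P', hUP', hP'⟩ := main1 a ha (fun h => hSP a h ha)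
      have hPW : ∀ (b : V), b ∈ T' → P ⊆ {x | x ∉ T' ∧ x ∉ Z' ∧ ¬ G.Adj b x} := fun b hb x hx =>
        ⟨(hP.1.1 hx).1, (hP.1.1 hx).2.1, fun h => hP.2 x hx b hb h.symm⟩
      have hPW' : P' ⊆ {x | x ∉ T' ∧ x ∉ Z' ∧ ¬ G.Adj t' x} := fun x hx =>
        ⟨(hP'.1.1 hx).1, (hP'.1.1 hx).2.1, fun h => hP'.2 x hx t' ht' h.symm⟩
      have hPP' : P ⊆ P' := cp_absorb hP'.1 hP.1.2.1 (hPW a ha) (hUP htU) (hUP' htU)
      have hP'P : P' ⊆ P := cp_absorb hP.1 hP'.1.2.1 hPW' (hUP' htU) (hUP htU)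
      have heq : P = P' := Subset.antisymm hPP' hP'P
      exact (NS_valid hE' hP' y (heq ▸ hy)).2.2
    have ht'P : t' ∉ P := fun h => (hP.1.1 h).1 ht'
    have htP : t ∈ P := hUP htU
    -- two elements of the neighbourhood of `P`
    obtain ⟨p1, hp1⟩ : ∃ p, p ∈ NS G P := by
      by_contra hcon
      push Not at hcon
      have := hG.2 P (subset_univ _) ⟨t, htP⟩ (by
        intro a ha b _ hab
        by_contra hb
        exact hcon b ⟨hb, a, ha, hab⟩)
      exact ht'P (this ▸ mem_univ t')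
    obtain ⟨p2, hp2, hp21⟩ : ∃ p ∈ NS G P, p ≠ p1 := by
      by_contra hcon
      push Not at hcon
      refine Bond.two h2 (X := P) ⟨t, htP⟩ (c := p1) (y := t') hp1.1 ht'P
        (fun h => (hNP p1 hp1).1 (h ▸ ht')) ?_
      intro a ha b hab
      by_cases hb : b ∈ P
      · exact Or.inl hb
      · exact Or.inr (hcon b ⟨hb, a, ha, hab⟩)
    obtain ⟨t2, ht2, ht21⟩ := hE'.other hG h2 t'
    obtain ⟨t3, ht3, ht31, ht32⟩ := third ht' ht2 ht21 (by
      intro hall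
      have hp := hNP p1 hp1
      exact hst t' t2 w1 w2 p1 ht21.symm hw12 (fun h => hp.2.1 (h ▸ hw1))
        (fun h => hp.2.1 (h ▸ hw2))
        (fun y => (hE'.nb _ hw1 y).trans (hall y)) (fun y => (hE'.nb _ hw2 y).trans (hall y))
        (hp.2.2 _ ht').symm (hp.2.2 _ ht2).symm)
    apply hK5
    have e : ∀ z ∈ Z', ∀ s ∈ T', G.Adj z s := fun z hz s hs => (hE'.nb z hz s).2 hs
    have nz : ∀ z ∈ Z', ∀ s ∈ T', z ≠ s := fun z hz s hs => (e z hz s hs).ne
    have hPn : ∀ y ∈ P, y ∉ T' ∧ y ∉ Z' := fun y hy => ⟨(hP.1.1 hy).1, (hP.1.1 hy).2.1⟩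
    have hd1 : ∀ a ∈ T', ∀ w ∈ Z', Disjoint ({a, w} : Set V) ({p1} ∪ P) := by
      intro a ha w hw
      rw [Set.disjoint_left]
      rintro b (rfl | hb) (hb' | hb')
      · exact (hNP p1 hp1).1 ((mem_singleton_iff.1 hb') ▸ ha)
      · exact (hPn b hb').1 ha
      · exact (hNP p1 hp1).2.1 ((mem_singleton_iff.1 hb') ▸ (mem_singleton_iff.1 hb) ▸ hw)
      · exact (hPn b hb').2 ((mem_singleton_iff.1 hb) ▸ hw)
    have hd2 : ∀ a ∈ T', ∀ w ∈ Z', Disjoint ({a, w} : Set V) {p2} := by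
      intro a ha w hw
      rw [Set.disjoint_left]
      rintro b (rfl | hb) hb'
      · exact (hNP p2 hp2).1 ((mem_singleton_iff.1 hb') ▸ ha)
      · exact (hNP p2 hp2).2.1 ((mem_singleton_iff.1 hb') ▸ (mem_singleton_iff.1 hb) ▸ hw)
    have hcP : Cn G ({p1} ∪ P) := by
      obtain ⟨_, a, ha, hap⟩ := hp1
      exact cn_union (cn_singleton p1) hP.1.2.1 rfl ha (Or.inr hap.symm)
    refine k5_five (A := {t', w1}) (B := {t2, w2}) (C := {t3}) (D := {p1} ∪ P) (E := {p2})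
      (cn_pair (e w1 hw1 t' ht').symm) (cn_pair (e w2 hw2 t2 ht2).symm) (cn_singleton _)
      hcP (cn_singleton _) ?_ ?_ (hd1 t' ht' w1 hw1) (hd2 t' ht' w1 hw1) ?_
      (hd1 t2 ht2 w2 hw2) (hd2 t2 ht2 w2 hw2) ?_ ?_ ?_
      ⟨w1, Or.inr rfl, t2, Or.inl rfl, e w1 hw1 t2 ht2⟩
      ⟨w1, Or.inr rfl, t3, rfl, e w1 hw1 t3 ht3⟩
      ⟨t', Or.inl rfl, p1, Or.inl rfl, (hNP p1 hp1).2.2 t' ht'⟩
      ⟨t', Or.inl rfl, p2, rfl, (hNP p2 hp2).2.2 t' ht'⟩
      ⟨w2, Or.inr rfl, t3, rfl, e w2 hw2 t3 ht3⟩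
      ⟨t2, Or.inl rfl, p1, Or.inl rfl, (hNP p1 hp1).2.2 t2 ht2⟩
      ⟨t2, Or.inl rfl, p2, rfl, (hNP p2 hp2).2.2 t2 ht2⟩
      ⟨t3, rfl, p1, Or.inl rfl, (hNP p1 hp1).2.2 t3 ht3⟩
      ⟨t3, rfl, p2, rfl, (hNP p2 hp2).2.2 t3 ht3⟩
      ?_
    · rw [Set.disjoint_left]
      rintro a (rfl | ha) (hb | hb)
      · exact ht21 hb.symm
      · exact nz w2 hw2 a ht' (mem_singleton_iff.1 hb).symm
      · exact nz w1 hw1 t2 ht2 ((mem_singleton_iff.1 ha).symm.trans hb)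
      · exact hw12 ((mem_singleton_iff.1 ha).symm.trans (mem_singleton_iff.1 hb))
    · rw [Set.disjoint_left]
      rintro a (rfl | ha) hb
      · exact ht31 (mem_singleton_iff.1 hb).symm
      · exact nz w1 hw1 t3 ht3 ((mem_singleton_iff.1 ha).symm.trans (mem_singleton_iff.1 hb))
    · rw [Set.disjoint_left]
      rintro a (rfl | ha) hb
      · exact ht32 (mem_singleton_iff.1 hb).symm
      · exact nz w2 hw2 t3 ht3 ((mem_singleton_iff.1 ha).symm.trans (mem_singleton_iff.1 hb))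
    · rw [Set.disjoint_left]
      rintro a ha (hb | hb)
      · exact (hNP p1 hp1).1 ((mem_singleton_iff.1 hb) ▸ (mem_singleton_iff.1 ha) ▸ ht3)
      · exact (hPn a hb).1 ((mem_singleton_iff.1 ha) ▸ ht3)
    · rw [Set.disjoint_left]
      rintro a ha hb
      exact (hNP p2 hp2).1 ((mem_singleton_iff.1 hb) ▸ (mem_singleton_iff.1 ha) ▸ ht3)
    · rw [Set.disjoint_left]
      rintro a (ha | ha) hb
      · exact hp21 ((mem_singleton_iff.1 hb).symm.trans (mem_singleton_iff.1 ha))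
      · exact hp2.1 ((mem_singleton_iff.1 hb) ▸ ha)
    · obtain ⟨_, a, ha, hap⟩ := hp2
      exact ⟨a, Or.inr ha, p2, rfl, hap⟩

end Pool.Agent.U385.Bond
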